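import Pool.Agent.Helper82.ST.W

/-! # Project ST, block D: the dual part -/

set_option autoImplicit false

namespace Pool.Agent.Helper95.ST

open MeasureTheory Set
open Pool.Agent.Helper99.MS (GB ff mr cv be alC gg CE CE_nonneg cv_cont ff_meas alC_KD be_KD g2_bd)
open Pool.Agent.Helper71.ST
open Pool.Agent.Helper82.ST (fk_cont fk_supp fk_int fk_norm)

variable {v0 δ : ℝ}

theorem fk_cs (hδ : 0 < δ) (hδ1 : δ ≤ 1 / 16) (hv : 1 / 4 ≤ v0) (t : ℝ) : HasCompactSupport (fk t v0 δ) := by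
  apply HasCompactSupport.intro (isCompact_Icc (a := -(1 / 4) - δ) (b := v0 + δ))
  intro y hy
  apply fk_supp hδ hδ1 hv t
  by_contra hc
  push Not at hc
  exact hy ⟨hc.2, hc.1⟩

theorem fk_mul_int (hδ : 0 < δ) (hδ1 : δ ≤ 1 / 16) (hv : 1 / 4 ≤ v0) (t V : ℝ) {g : ℝ → ℂ} (hg : Continuous g) :
    Integrable (fun y : ℝ => fk t v0 δ y * g (V + y)) := by
  have h1 : Continuous (fun y : ℝ => fk t v0 δ y * g (V + y)) :=
    (fk_cont hδ t).mul (hg.comp (by fun_prop : Continuous fun y : ℝ => V + y))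
  exact h1.integrable_of_hasCompactSupport (fk_cs hδ hδ1 hv t).mul_right

theorem gA_cont {B : ℝ} (h : GB (ff mr) B) {k : ℕ} (hk : 2 ≤ k) : Continuous (gA k) := by
  unfold gA
  exact cv_cont (ff_meas mr) h (alC_KD (by omega))

theorem gB_cont {B : ℝ} (h : GB (ff mr) B) {k : ℕ} (hk : 2 ≤ k) : Continuous (gB k) :=
  (cv_cont (ff_meas mr) h (be_KD (by omega : 1 ≤ k))).comp continuous_neg

theorem tc_split {B : ℝ} (h : GB (ff mr) B) {k : ℕ} (hk : 2 ≤ k) {v0 δ : ℝ} (hδ : 0 < δ) (hδ1 : δ ≤ 1 / 16) (hv : 1 / 4 ≤ v0) (t V : ℝ) :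
    Tc (fk t v0 δ) (gg (4 * k)) V = Tc (fk t v0 δ) (gA k) V - Tc (fk t v0 δ) (gB k) V := by
  unfold Tc
  rw [← integral_sub (fk_mul_int hδ hδ1 hv t V (gA_cont h hk)) (fk_mul_int hδ hδ1 hv t V (gB_cont h hk))]
  congr 1
  ext y
  unfold gg gA gB
  ring

theorem tc_gB {B : ℝ} (h : GB (ff mr) B) {k : ℕ} (hk : 2 ≤ k) {v0 δ : ℝ} (hδ : 0 < δ) (hδ1 : δ ≤ 1 / 16) (hv : 1 / 4 ≤ v0) (t : ℝ)
    {V : ℝ} (hV : -(1 / 2) ≤ V) :
    ‖Tc (fk t v0 δ) (gB k) V‖ ≤ 2 * Real.exp ((v0 + δ) / 2) * (228 * B * CE / √((4 * k : ℕ) : ℝ)) := by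
  have hB := h.nonneg
  have hCE := CE_nonneg
  set q : ℝ := 228 * B * CE / √((4 * k : ℕ) : ℝ) with hq
  have hq0 : 0 ≤ q := by positivity
  unfold Tc
  have h1 : ‖∫ y : ℝ, fk t v0 δ y * gB k (V + y)‖ ≤ ∫ y : ℝ, ‖fk t v0 δ y‖ * q := by
    apply norm_integral_le_of_norm_le ((fk_int hδ hδ1 hv t).norm.mul_const q)
    filter_upwards with y
    rw [norm_mul]
    by_cases hy : y < -(1 / 4) - δ
    · rw [fk_supp hδ hδ1 hv t (Or.inr hy)]
      simp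
    · apply mul_le_mul_of_nonneg_left _ (norm_nonneg _)
      push Not at hy
      exact g2_bd h (by omega : 1 ≤ k) (by linarith)
  refine h1.trans ?_
  rw [integral_mul_const]
  exact mul_le_mul_of_nonneg_right (fk_norm hδ hδ1 hv t) hq0

end Pool.Agent.Helper95.ST
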